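import Pool.Agent.Lib.UDet.Split

/-!
# MP_d1129e_lc : Martin's conjecture for Borel functions, part I: a trichotomy

Let `f` be a map on the Turing degrees induced by a Borel map `φ` on reals.  Then exactly one of the
following holds: `f` is constant on a cone; `f` is above the identity on a cone; or for all `b` in a
cone and comeager many reals `g`, the value `f (b ∨ g)` is incomparable with `f x` for all `x` in
some cone (and the same for all other Borel families of arguments in the cone on which `φ` takes no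
value on a nonmeager set).  In the third case, moreover, `f x` has a small common part with generic
values and with `x`, unless there is a perfect set of exceptions: (iii) either there are a perfect
set `P` and `t` with `a ≤ f x` for all `a ∈ P` and `x ≥ a ∨ t`, or the common part of `f (b ∨ g)`
and `f x` is eventually a fixed set which does not depend on `g`; (iv) either there are a perfect
set `P` and `t` with `a ≤ f (a ∨ t)` for all `a ∈ P`, or the common part of `x` and `f x` is
eventually contained in any given Borel set which contains all the reals that are eventually below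
`f`.  The proof uses Borel determinacy, in a form which is uniform for comeager many parameters.
-/

set_option autoImplicit false

open Filter

namespace Pool.Agent.Results.MP_d1129e_lc.BorelTrichotomy

/-- Turing reducibility of sets of natural numbers, given by their characteristic functions -/
def Red (A B : ℕ → Bool) : Prop :=
  TuringReducible (fun n => Part.some (A n).toNat : ℕ →. ℕ)
    (fun n => Part.some (B n).toNat : ℕ →. ℕ)

/-- Turing equivalence -/
def TEq (A B : ℕ → Bool) : Prop := Red A B ∧ Red B A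

/-- the join of two reals: `A` on the even numbers, `B` on the odd numbers -/
def join (A B : ℕ → Bool) (n : ℕ) : Bool := if n % 2 = 0 then A (n / 2) else B (n / 2)

/-- `φ` is constant on a cone, up to Turing equivalence -/
def ConstOnCone (φ : (ℕ → Bool) → (ℕ → Bool)) : Prop :=
  ∃ C D : ℕ → Bool, ∀ A, Red C A → TEq (φ A) D

/-- `φ` is above the identity on a cone -/
def AboveOnCone (φ : (ℕ → Bool) → (ℕ → Bool)) : Prop :=
  ∃ C : ℕ → Bool, ∀ A, Red C A → Red A (φ A)

/-- `a` is Turing incomparable with `φ X` for all `X` in a cone -/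
def EvIncomparable (φ : (ℕ → Bool) → (ℕ → Bool)) (a : ℕ → Bool) : Prop :=
  ∃ B : ℕ → Bool, ∀ X, Red B X → ¬ Red a (φ X) ∧ ¬ Red (φ X) a

/-- `φ X` is above `X` modulo the parameter `t`, for all `X ≥ t` -/
def AboveMod (φ : (ℕ → Bool) → (ℕ → Bool)) (t : ℕ → Bool) : Prop :=
  ∀ X, Red t X → Red X (join (φ X) t)

/-- for some perfect set (the range of `e`) and some `t`, all its members `a` are computable from
`φ X` for all `X ≥ a ⊕ t` -/
def PerfectBelow (φ : (ℕ → Bool) → (ℕ → Bool)) : Prop :=
  ∃ (e : (ℕ → Bool) → (ℕ → Bool)) (t : ℕ → Bool), Continuous e ∧ Function.Injective e ∧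
    (∀ y X, Red (join (e y) t) X → Red (e y) (φ X)) ∧ AboveMod φ t

/-- for some perfect set (the range of `e`) and some `t`, all its members `a` are computable from
`φ (a ⊕ t)` -/
def PerfectMeet (φ : (ℕ → Bool) → (ℕ → Bool)) : Prop :=
  ∃ (e : (ℕ → Bool) → (ℕ → Bool)) (t : ℕ → Bool), Continuous e ∧ Function.Injective e ∧
    (∀ y, Red (e y) (φ (join (e y) t))) ∧ AboveMod φ t

/-- for comeager many `g`, the common part of `φ (b ⊕ g)` and `φ X`, for all `X` in a cone, is a
fixed set of reals which depends only on `b` -/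
def FixedCommonPart (φ : (ℕ → Bool) → (ℕ → Bool)) : Prop :=
  ∀ b : ℕ → Bool, ∃ I : Set (ℕ → Bool), ∀ᶠ g in residual (ℕ → Bool), ∃ B : ℕ → Bool, ∀ X, Red B X →
    ∀ a, (Red a (φ (join b g)) ∧ Red a (φ X)) ↔ a ∈ I

/-- `a` is computable from `φ X` for all `X` in a cone -/
def EvBelow (φ : (ℕ → Bool) → (ℕ → Bool)) (a : ℕ → Bool) : Prop :=
  ∃ B : ℕ → Bool, ∀ X, Red B X → Red a (φ X)

/-- each Borel set `S` which contains all the reals that are eventually below `φ` contains, for all
`X` in a cone, all the reals which are computable both from `X` and from `φ X` -/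
def SmallMeet (φ : (ℕ → Bool) → (ℕ → Bool)) : Prop :=
  ∀ S : Set (ℕ → Bool), MeasurableSet S → (∀ a, EvBelow φ a → a ∈ S) →
    ∃ C : ℕ → Bool, ∀ X, Red C X → ∀ a, Red a X → Red a (φ X) → a ∈ S

/-- the third case -/
def GenericallyIncomparable (φ : (ℕ → Bool) → (ℕ → Bool)) : Prop :=
  ∃ C : ℕ → Bool,
    (∀ b, Red C b → ∀ᶠ g in residual (ℕ → Bool), EvIncomparable φ (φ (join b g))) ∧
    (∀ e : (ℕ → Bool) → (ℕ → Bool), Measurable e → (∀ y, Red C (e y)) →
      (∀ x : ℕ → Bool, ∀ᶠ y in residual (ℕ → Bool), φ (e y) ≠ x) →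
      ∀ᶠ y in residual (ℕ → Bool), EvIncomparable φ (φ (e y))) ∧
    (PerfectBelow φ ∨ FixedCommonPart φ) ∧
    (PerfectMeet φ ∨ SmallMeet φ)

theorem red_iff (A B : ℕ → Bool) : Red A B ↔ Mart.TR A B := RecursiveIn.iff_nat

theorem red_eq : Red = Mart.TR := funext fun A => funext fun B => propext (red_iff A B)

theorem join_eq : join = Mart.bjoin := rfl

theorem teq_eq : TEq = Mart.Eqv := by
  funext A B
  unfold TEq Mart.Eqv
  rw [red_eq]

theorem result (φ : (ℕ → Bool) → (ℕ → Bool)) (hφ : Measurable φ)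
    (hinv : ∀ A B, TEq A B → TEq (φ A) (φ B)) :
    (ConstOnCone φ ∨ AboveOnCone φ ∨ GenericallyIncomparable φ) ∧
      ¬ (ConstOnCone φ ∧ AboveOnCone φ) ∧
      ¬ (ConstOnCone φ ∧ GenericallyIncomparable φ) ∧
      ¬ (AboveOnCone φ ∧ GenericallyIncomparable φ) := by
  have hinv' : ∀ A B, Mart.Eqv A B → Mart.TR (φ A) (φ B) := by
    intro A B h
    rw [← teq_eq] at h
    have := (hinv A B h).1
    rw [red_eq] at this
    exact this
  unfold ConstOnCone AboveOnCone GenericallyIncomparable EvIncomparable PerfectBelow PerfectMeet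
    AboveMod FixedCommonPart SmallMeet EvBelow
  rw [teq_eq, red_eq, join_eq]
  refine ⟨?_, ?_, ?_, ?_⟩
  · by_cases h1 : UDet.ConstCone φ
    · exact Or.inl h1
    by_cases h2 : UDet.AboveId φ
    · exact Or.inr (Or.inl h2)
    · obtain ⟨C, h3, h4⟩ := UDet.generic_incomparable hφ hinv' h1 h2
      refine Or.inr (Or.inr ⟨C, h3, h4, ?_, ?_⟩)
      · by_cases h5 : UDet.PerfBelow φ
        · exact Or.inl h5
        · exact Or.inr fun b => ⟨UDet.II φ b, UDet.generic_exact hφ hinv' h5 b⟩
      · by_cases h5 : UDet.PerfMeet φ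
        · exact Or.inl h5
        · exact Or.inr fun S hS hFS => UDet.meet_in hφ hinv' h5 hS hFS
  · rintro ⟨⟨C, D, h1⟩, C', h2⟩
    obtain ⟨A, hA⟩ := UDet.exists_not_below D
    refine hA ?_
    have hC : Mart.TR C (Mart.bjoin (Mart.bjoin C C') A) :=
      (Mart.tr_bjoin_left C C').trans (Mart.tr_bjoin_left _ _)
    have hC' : Mart.TR C' (Mart.bjoin (Mart.bjoin C C') A) :=
      (Mart.tr_bjoin_right C C').trans (Mart.tr_bjoin_left _ _)
    exact ((Mart.tr_bjoin_right _ _).trans (h2 _ hC')).trans (h1 _ hC).1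
  · rintro ⟨⟨C, D, h1⟩, C', h2, -⟩
    obtain ⟨g, -, B, hB⟩ := Mart.exists_of_residual
      (h2 (Mart.bjoin C C') (Mart.tr_bjoin_right _ _)) []
    have h3 := h1 (Mart.bjoin (Mart.bjoin C C') g)
      ((Mart.tr_bjoin_left C C').trans (Mart.tr_bjoin_left _ _))
    have h4 := h1 (Mart.bjoin B C) (Mart.tr_bjoin_right _ _)
    exact (hB (Mart.bjoin B C) (Mart.tr_bjoin_left _ _)).1 (h3.1.trans h4.2)
  · rintro ⟨⟨C, h1⟩, C', h2, -⟩
    obtain ⟨g, -, B, hB⟩ := Mart.exists_of_residual (h2 C' (Mart.TR.refl C')) []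
    let a : ℕ → Bool := φ (Mart.bjoin C' g)
    have h3 : Mart.TR C (Mart.bjoin (Mart.bjoin B C) a) :=
      (Mart.tr_bjoin_right B C).trans (Mart.tr_bjoin_left _ _)
    exact (hB (Mart.bjoin (Mart.bjoin B C) a)
      ((Mart.tr_bjoin_left B C).trans (Mart.tr_bjoin_left _ _))).1
      ((Mart.tr_bjoin_right _ a).trans (h1 _ h3))

end Pool.Agent.Results.MP_d1129e_lc.BorelTrichotomy
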