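import Pool.Agent.Lib.MCmp.FinTri
import Pool.Agent.Lib.MJump.JTrans

/-!
# MP_d1129e_lc : Martin's conjecture for Borel functions, part I: a trichotomy for all functions of
finite Borel rank

Let `f` be a map on the Turing degrees induced by a map `φ` on reals of finite Borel rank.  Then
exactly one of the following holds: `f` is constant on a cone; `f` is above the identity on a cone;
or, on a cone, the degrees `f(a), f(a'), f(a''), …` (values at the iterated Turing jumps) are pairwise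
incomparable, and moreover none of them is below the join of the previous ones.
-/

set_option autoImplicit false

namespace Pool.Agent.Results.MP_d1129e_lc.JumpTrichotomy

/-- Turing reducibility of sets of natural numbers, given by their characteristic functions -/
def Red (A B : ℕ → Bool) : Prop :=
  TuringReducible (fun n => Part.some (A n).toNat : ℕ →. ℕ)
    (fun n => Part.some (B n).toNat : ℕ →. ℕ)

/-- Turing equivalence -/
def TEq (A B : ℕ → Bool) : Prop := Red A B ∧ Red B A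

/-- `S` is recursively enumerable in `A`: the domain of a partial function recursive in `A` -/
def EnumerableIn (A S : ℕ → Bool) : Prop :=
  ∃ f : ℕ →. ℕ, TuringReducible f (fun n => Part.some (A n).toNat : ℕ →. ℕ) ∧
    ∀ k, S k = true ↔ (f k).Dom

/-- `B` is a Turing jump of `A` (up to Turing equivalence): it computes all sets recursively
enumerable in `A` and is computable in one of them -/
def IsJump (A B : ℕ → Bool) : Prop :=
  (∀ S, EnumerableIn A S → Red S B) ∧ ∃ S, EnumerableIn A S ∧ Red B S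

/-- the boldface Borel class `Σ⁰_(n+1)` of sets of reals -/
def SigmaClass : ℕ → Set (ℕ → Bool) → Prop
  | 0, S => IsOpen S
  | n + 1, S => ∃ T : ℕ → Set (ℕ → Bool), (∀ i, SigmaClass n (T i)) ∧ S = ⋃ i, (T i)ᶜ

/-- the join of the reals `Y i`, `i < k`: bit `⟨i, m⟩` is `Y i m` if `i < k`, and `false` if not -/
def joinBelow (k : ℕ) (Y : ℕ → ℕ → Bool) (n : ℕ) : Bool :=
  if n.unpair.1 < k then Y n.unpair.1 n.unpair.2 else false

/-- `φ` is constant on a cone, up to Turing equivalence -/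
def ConstOnCone (φ : (ℕ → Bool) → (ℕ → Bool)) : Prop :=
  ∃ C D : ℕ → Bool, ∀ A, Red C A → TEq (φ A) D

/-- `φ` is above the identity on a cone -/
def AboveOnCone (φ : (ℕ → Bool) → (ℕ → Bool)) : Prop :=
  ∃ C : ℕ → Bool, ∀ A, Red C A → Red A (φ A)

/-- on a cone, the values of `φ` at `A`, `J A`, `J (J A)`, … are pairwise incomparable: none is
computable from a later one, or from the join of the previous ones -/
def IncomparableAlong (J φ : (ℕ → Bool) → (ℕ → Bool)) : Prop :=
  ∃ C : ℕ → Bool, ∀ A, Red C A →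
    (∀ i j, i < j → ¬ Red (φ (J^[i] A)) (φ (J^[j] A))) ∧
    ∀ j, ¬ Red (φ (J^[j] A)) (joinBelow j fun i => φ (J^[i] A))

open Pool.Agent

theorem red_eq : Red = Mart.TR := funext fun _ => funext fun _ => propext RecursiveIn.iff_nat

theorem teq_eq : TEq = Mart.Eqv := by
  funext A B
  show (Red A B ∧ Red B A) = (Mart.TR A B ∧ Mart.TR B A)
  rw [red_eq]

theorem sig_eq (n : ℕ) (S : Set (ℕ → Bool)) : SigmaClass n S ↔ Mart.Sig n S := by
  induction n generalizing S with
  | zero => exact Iff.rfl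
  | succ n ih =>
    constructor
    · rintro ⟨T, hT, rfl⟩
      exact ⟨T, fun i => (ih _).1 (hT i), rfl⟩
    · rintro ⟨T, hT, rfl⟩
      exact ⟨T, fun i => (ih _).2 (hT i), rfl⟩

theorem enum_iff (A S : ℕ → Bool) : EnumerableIn A S ↔ Mart.REn A S := by
  constructor
  · rintro ⟨f, hf, h⟩
    exact ⟨f, RecursiveIn.iff_nat.1 hf, h⟩
  · rintro ⟨f, hf, h⟩
    exact ⟨f, RecursiveIn.iff_nat.2 hf, h⟩

theorem iter_eqv {J : (ℕ → Bool) → (ℕ → Bool)} (hJ : ∀ A, IsJump A (J A)) (m : ℕ)
    (A : ℕ → Bool) : Mart.Eqv (J^[m] A) (Mart.jmp m A) := by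
  refine Mart.iterate_eqv (fun A => ?_) m A
  obtain ⟨h1, S, h2, h3⟩ := hJ A
  rw [red_eq] at h3
  refine ⟨fun S hS => ?_, S, (enum_iff A S).1 h2, h3⟩
  have h4 := h1 S ((enum_iff A S).2 hS)
  rw [red_eq] at h4
  exact h4

theorem along_iff {J φ : (ℕ → Bool) → (ℕ → Bool)} (hJ : ∀ A, IsJump A (J A))
    (hinv : ∀ A B, Mart.Eqv A B → Mart.TR (φ A) (φ B)) :
    IncomparableAlong J φ ↔ MCmp.Wild φ := by
  have h1 : ∀ i A, Mart.TR (φ (J^[i] A)) (φ (Mart.jmp i A)) := fun i A => hinv _ _ (iter_eqv hJ i A)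
  have h2 : ∀ i A, Mart.TR (φ (Mart.jmp i A)) (φ (J^[i] A)) := fun i A =>
    hinv _ _ (iter_eqv hJ i A).symm
  have h3 : ∀ i j A, Mart.TR (φ (J^[i] A)) (φ (J^[j] A)) ↔
      Mart.TR (φ (Mart.jmp i A)) (φ (Mart.jmp j A)) := fun i j A =>
    ⟨fun h => ((h2 i A).trans h).trans (h1 j A), fun h => ((h1 i A).trans h).trans (h2 j A)⟩
  have h4 : ∀ j A, Mart.TR (φ (J^[j] A)) (joinBelow j fun i => φ (J^[i] A)) ↔
      Mart.TR (φ (Mart.jmp j A)) (MCmp.joinBelow j fun i => φ (Mart.jmp i A)) := by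
    intro j A
    have e1 : Mart.TR (joinBelow j fun i => φ (J^[i] A))
        (MCmp.joinBelow j fun i => φ (Mart.jmp i A)) :=
      MCmp.joinBelow_tr fun i hi => (h1 i A).trans
        (MCmp.tr_joinBelow hi fun i => φ (Mart.jmp i A))
    have e2 : Mart.TR (MCmp.joinBelow j fun i => φ (Mart.jmp i A))
        (joinBelow j fun i => φ (J^[i] A)) :=
      MCmp.joinBelow_tr fun i hi => (h2 i A).trans
        (MCmp.tr_joinBelow hi fun i => φ (J^[i] A))
    exact ⟨fun h => ((h2 j A).trans h).trans e1, fun h => ((h1 j A).trans h).trans e2⟩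
  unfold IncomparableAlong MCmp.Wild
  rw [red_eq]
  simp only [h3, h4]

theorem result (J : (ℕ → Bool) → (ℕ → Bool)) (hJ : ∀ A, IsJump A (J A))
    (φ : (ℕ → Bool) → (ℕ → Bool)) (n : ℕ) (hφ : ∀ i, SigmaClass n {A | φ A i = true})
    (hinv : ∀ A B, TEq A B → TEq (φ A) (φ B)) :
    (ConstOnCone φ ∨ AboveOnCone φ ∨ IncomparableAlong J φ) ∧
      ¬ (ConstOnCone φ ∧ AboveOnCone φ) ∧
      ¬ (ConstOnCone φ ∧ IncomparableAlong J φ) ∧
      ¬ (AboveOnCone φ ∧ IncomparableAlong J φ) := by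
  have hinv' : ∀ A B, Mart.Eqv A B → Mart.TR (φ A) (φ B) := by
    intro A B h
    rw [← teq_eq] at h
    have := (hinv A B h).1
    rw [red_eq] at this
    exact this
  have hS : ∀ i, Mart.Sig n {A | φ A i = true} := fun i => (sig_eq _ _).1 (hφ i)
  rw [along_iff hJ hinv']
  unfold ConstOnCone AboveOnCone
  rw [teq_eq, red_eq]
  refine ⟨?_, MCmp.not_const_above, MCmp.not_const_wild, MCmp.not_above_wild hS⟩
  by_cases h1 : UDet.ConstCone φ
  · exact Or.inl h1
  by_cases h2 : UDet.AboveId φ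
  · exact Or.inr (Or.inl h2)
  · exact Or.inr (Or.inr (MCmp.fin_trichotomy hS hinv' h1 h2))

end Pool.Agent.Results.MP_d1129e_lc.JumpTrichotomy
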