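import Pool.Agent.Lib.MCmp.OpTri

/-!
# MP_d1129e_lc : Martin's conjecture for Borel functions, part I: a trichotomy for all Borel
functions, along a fast operator

Let `f` be a map on the Turing degrees induced by a Borel map `φ` on reals.  There are Borel order
preserving operators `J` on the reals, as fast as we please (`J A` computes `A`, `φ A` and `h A`, for
any given Borel map `h`), such that exactly one of the following holds: `f` is constant on a cone; `f`
is above the identity on a cone; or, on a cone, the degrees `f(a), f(J a), f(J (J a)), …` are pairwise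
incomparable, and moreover none of them is below the join of the previous ones.
-/

set_option autoImplicit false

namespace Pool.Agent.Results.MP_d1129e_lc.OperatorTrichotomy

/-- Turing reducibility of sets of natural numbers, given by their characteristic functions -/
def Red (A B : ℕ → Bool) : Prop :=
  TuringReducible (fun n => Part.some (A n).toNat : ℕ →. ℕ)
    (fun n => Part.some (B n).toNat : ℕ →. ℕ)

/-- Turing equivalence -/
def TEq (A B : ℕ → Bool) : Prop := Red A B ∧ Red B A

/-- the join of the reals `Y i`, `i < k`: bit `⟨i, m⟩` is `Y i m` if `i < k`, and `false` if not -/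
def joinBelow (k : ℕ) (Y : ℕ → ℕ → Bool) (n : ℕ) : Bool :=
  if n.unpair.1 < k then Y n.unpair.1 n.unpair.2 else false

/-- `φ` is constant on a cone, up to Turing equivalence -/
def ConstOnCone (φ : (ℕ → Bool) → (ℕ → Bool)) : Prop :=
  ∃ C D : ℕ → Bool, ∀ A, Red C A → TEq (φ A) D

/-- `φ` is above the identity on a cone -/
def AboveOnCone (φ : (ℕ → Bool) → (ℕ → Bool)) : Prop :=
  ∃ C : ℕ → Bool, ∀ A, Red C A → Red A (φ A)

/-- on a cone, the values of `φ` at `A`, `J A`, `J (J A)`, … are pairwise incomparable: none is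
computable from a later one, or from the join of the previous ones -/
def IncomparableAlong (J φ : (ℕ → Bool) → (ℕ → Bool)) : Prop :=
  ∃ C : ℕ → Bool, ∀ A, Red C A →
    (∀ i j, i < j → ¬ Red (φ (J^[i] A)) (φ (J^[j] A))) ∧
    ∀ j, ¬ Red (φ (J^[j] A)) (joinBelow j fun i => φ (J^[i] A))

open Pool.Agent

theorem red_eq : Red = Mart.TR := funext fun _ => funext fun _ => propext RecursiveIn.iff_nat

theorem teq_eq : TEq = Mart.Eqv := by
  funext A B
  show (Red A B ∧ Red B A) = (Mart.TR A B ∧ Mart.TR B A)
  rw [red_eq]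

theorem result (φ h : (ℕ → Bool) → (ℕ → Bool)) (hφ : Measurable φ) (hh : Measurable h)
    (hinv : ∀ A B, TEq A B → TEq (φ A) (φ B)) :
    ∃ J : (ℕ → Bool) → (ℕ → Bool), Measurable J ∧ (∀ A B, Red A B → Red (J A) (J B)) ∧
      (∀ A, Red A (J A) ∧ Red (φ A) (J A) ∧ Red (h A) (J A)) ∧
      (ConstOnCone φ ∨ AboveOnCone φ ∨ IncomparableAlong J φ) ∧
      ¬ (ConstOnCone φ ∧ AboveOnCone φ) ∧
      ¬ (ConstOnCone φ ∧ IncomparableAlong J φ) ∧
      ¬ (AboveOnCone φ ∧ IncomparableAlong J φ) := by
  have hinv' : ∀ A B, Mart.Eqv A B → Mart.TR (φ A) (φ B) := by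
    intro A B h
    rw [← teq_eq] at h
    have := (hinv A B h).1
    rw [red_eq] at this
    exact this
  obtain ⟨base, h1, h2, h3, h4, -⟩ := MCmp.operator_trichotomy hφ hh hinv'
  have e1 : (fun k Y => joinBelow k Y) = fun k Y => MCmp.joinBelow k Y := rfl
  have e2 : IncomparableAlong (MGen.JJ base) φ ↔ MCmp.WildJ base φ := by
    unfold IncomparableAlong
    rw [red_eq]
    exact Iff.rfl
  refine ⟨MGen.JJ base, MGen.measurable_JJ base, ?_, ?_, ?_⟩
  · rw [red_eq]
    exact fun A B => MGen.JJ_mono base
  · rw [red_eq]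
    exact h1
  · rw [e2]
    unfold ConstOnCone AboveOnCone
    rw [teq_eq, red_eq]
    exact ⟨h2, MCmp.not_const_above, h3, h4⟩

end Pool.Agent.Results.MP_d1129e_lc.OperatorTrichotomy
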