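import Pool.Agent.Lib.MSix.App0
import Pool.Agent.Lib.MJump.JTrans

/-!
# MP_d1129e_lc : Martin's conjecture for Borel functions, part I: functions with `f(x) ≤ x^(N)`

Let `f` be a Borel map on the Turing degrees with `f(x) ≤ x^(N)` for all `x` in a cone.  Then either
`f` is constant on a cone; or, for every `M ≥ N`, every degree `c` in a cone is the join of six values
`f(a_0), …, f(a_5)` at degrees whose `M`-th Turing jump is exactly `c`.  The case `N = M = 0` is the
theorem of Slaman and Steel on regressive functions.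
-/

set_option autoImplicit false

namespace Pool.Agent.Results.MP_d1129e_lc.SixDegrees

/-- Turing reducibility of sets of natural numbers, given by their characteristic functions -/
def Red (A B : ℕ → Bool) : Prop :=
  TuringReducible (fun n => Part.some (A n).toNat : ℕ →. ℕ)
    (fun n => Part.some (B n).toNat : ℕ →. ℕ)

/-- Turing equivalence -/
def TEq (A B : ℕ → Bool) : Prop := Red A B ∧ Red B A

/-- `S` is recursively enumerable in `A`: the domain of a partial function recursive in `A` -/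
def EnumerableIn (A S : ℕ → Bool) : Prop :=
  ∃ f : ℕ →. ℕ, TuringReducible f (fun n => Part.some (A n).toNat : ℕ →. ℕ) ∧
    ∀ k, S k = true ↔ (f k).Dom

/-- `B` is a Turing jump of `A` (up to Turing equivalence): it computes all sets recursively
enumerable in `A` and is computable in one of them -/
def IsJump (A B : ℕ → Bool) : Prop :=
  (∀ S, EnumerableIn A S → Red S B) ∧ ∃ S, EnumerableIn A S ∧ Red B S

/-- the join of the six reals `Y 0, …, Y 5` -/
def joinSix (Y : ℕ → ℕ → Bool) (n : ℕ) : Bool := Y (n % 6) (n / 6)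

open Pool.Agent Pool.Agent.GammaZero

theorem red_eq : Red = Mart.TR := funext fun _ => funext fun _ => propext RecursiveIn.iff_nat

theorem teq_eq : TEq = Mart.Eqv := by
  funext A B
  show (Red A B ∧ Red B A) = (Mart.TR A B ∧ Mart.TR B A)
  rw [red_eq]

theorem enum_iff (A S : ℕ → Bool) : EnumerableIn A S ↔ Mart.REn A S := by
  constructor
  · rintro ⟨f, hf, h⟩
    exact ⟨f, RecursiveIn.iff_nat.1 hf, h⟩
  · rintro ⟨f, hf, h⟩
    exact ⟨f, RecursiveIn.iff_nat.2 hf, h⟩

theorem tr_six {Y : ℕ → ℕ → Bool} {j : ℕ} (hj : j < 6) : Mart.TR (Y j) (joinSix Y) := by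
  rw [Mart.tr_iff_ci]
  refine (Mart.ci_orc_comp (Mart.TR.refl (joinSix Y)) (CI.add (CI.mul (CI.const 6)
    (CI.of_computable Computable.id)) (CI.const j))).congr fun n => ?_
  unfold joinSix
  have h1 : (6 * id n + j) % 6 = j := by simp only [id]; omega
  have h2 : (6 * id n + j) / 6 = n := by simp only [id]; omega
  rw [h1, h2]

theorem six_tr {Y : ℕ → ℕ → Bool} {c : ℕ → Bool} (h : ∀ j < 6, Mart.TR (Y j) c) :
    Mart.TR (joinSix Y) c := by
  have h1 : Mart.TR (MCmp.joinBelow 6 Y) c := MCmp.joinBelow_tr h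
  refine Mart.TR.trans ?_ h1
  rw [Mart.tr_iff_ci]
  refine (Mart.ci_orc_comp (Mart.TR.refl (MCmp.joinBelow 6 Y)) (CI.npair
    (CI.mod (CI.of_computable Computable.id) (CI.const 6))
    (CI.div (CI.of_computable Computable.id) (CI.const 6)))).congr fun n => ?_
  unfold joinSix MCmp.joinBelow
  simp only [Nat.unpair_pair, id]
  rw [if_pos (Nat.mod_lt _ (by norm_num))]

theorem result (J : (ℕ → Bool) → (ℕ → Bool)) (hJ : ∀ A, IsJump A (J A))
    (φ : (ℕ → Bool) → (ℕ → Bool)) (hφ : Measurable φ)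
    (hinv : ∀ A B, TEq A B → TEq (φ A) (φ B)) (N : ℕ)
    (hN : ∃ C : ℕ → Bool, ∀ A, Red C A → Red (φ A) (J^[N] A)) :
    (∃ C D : ℕ → Bool, ∀ A, Red C A → TEq (φ A) D) ∨
    ∀ M, N ≤ M → ∀ B : ℕ → Bool, ∃ C : ℕ → Bool, ∀ c, Red C c →
      ∃ a : ℕ → ℕ → Bool, (∀ j < 6, Red B (a j) ∧ TEq (J^[M] (a j)) c) ∧
        TEq c (joinSix fun j => φ (a j)) := by
  simp only [teq_eq, red_eq] at *
  have hJ' : ∀ A, (∀ S, Mart.REn A S → Mart.TR S (J A)) ∧ ∃ S, Mart.REn A S ∧ Mart.TR (J A) S := by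
    intro A
    obtain ⟨h1, S, h2, h3⟩ := hJ A
    rw [red_eq] at h3
    refine ⟨fun S hS => ?_, S, (enum_iff A S).1 h2, h3⟩
    have h4 := h1 S ((enum_iff A S).2 hS)
    rw [red_eq] at h4
    exact h4
  have hit := Mart.iterate_eqv hJ'
  obtain ⟨C₀, hC₀⟩ := hN
  have hle : ∀ A, Mart.TR C₀ A → Mart.TR (φ A) (Mart.jmp N A) :=
    fun A hA => (hC₀ A hA).trans (hit _ _).1
  by_cases h0 : UDet.ConstCone φ
  · exact Or.inl h0
  · right
    intro M hM B
    obtain ⟨C', hC'⟩ := MSix.six_all hφ (fun A B h => (hinv A B h).1) hle h0 hM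
      (Mart.bjoin B C₀)
    refine ⟨C', fun c hc => ?_⟩
    obtain ⟨a, h1, h2⟩ := hC' c hc
    refine ⟨a, fun j hj => ⟨(Mart.tr_bjoin_left B C₀).trans (h1 j hj).1,
      (hit _ _).trans (h1 j hj).2⟩, h2.trans (MCmp.joinBelow_tr fun j hj => ?_),
      six_tr fun j hj => ?_⟩
    · exact tr_six (Y := fun j => φ (a j)) hj
    · have h3 := hle (a j) ((Mart.tr_bjoin_right B C₀).trans (h1 j hj).1)
      exact (h3.trans (Mart.jmp_tr_jmp (a j) hM)).trans (h1 j hj).2.1

end Pool.Agent.Results.MP_d1129e_lc.SixDegrees
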